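import Pool.Agent.Helper29.E3.St1
import Pool.Agent.Helper49.PC.StN
import Pool.Agent.Helper48.BK.M_Vau

/-! # Module MILX of project E3: the von Mangoldt function in the unit classes, two parameters

Adapted from `Pool.Agent.Helper49.PC.M_MIL`. -/

set_option autoImplicit false

namespace Pool.Agent.Helper47.E3

open Finset ArithmeticFunction
open Pool.Agent.Helper29.E3 Pool.Agent.Helper49.PC
open Pool.Agent.Helper48.BK (ex th lz Vz Pz gs nd Apx AdN Sol thd)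
open Pool.Agent.Helper2 (lo hi mob zet sum_conv lo_apply hi_apply abs_mob_le zet_apply
  hi_mob_zet_eq_zero hi_mob_zet_sq_le hi_vonMangoldt_sq_le lo_add_hi ring_identity mob_mul_zet
  vonMangoldt_mul_zet)

/-- Vaughan's identity with two parameters -/
theorem vaughan2 (V U : ℕ) :
    vonMangoldt = lo vonMangoldt V + lo mob U * log
      - (lo vonMangoldt V * lo mob U) * zet + (hi mob U * zet) * hi vonMangoldt V := by
  have h1 := lo_add_hi vonMangoldt V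
  have h2 := lo_add_hi mob U
  have h3 := ring_identity (lo vonMangoldt V) (hi vonMangoldt V) (lo mob U) (hi mob U) zet
    (by rw [h2, mob_mul_zet])
  rw [h1, vonMangoldt_mul_zet] at h3
  rw [mul_comm (hi mob U * zet) (hi vonMangoldt V)]
  exact h3

theorem lo_mul_lo_eq_zero2 (f g : ArithmeticFunction ℝ) (V U n : ℕ) (hn : U * V < n) :
    (lo f V * lo g U) n = 0 := by
  rw [ArithmeticFunction.mul_apply]
  refine Finset.sum_eq_zero fun x hx => ?_
  obtain ⟨h1, _⟩ := Nat.mem_divisorsAntidiagonal.1 hx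
  rw [lo_apply, lo_apply]
  by_cases h2 : x.1 ≤ V
  · by_cases h3 : x.2 ≤ U
    · exfalso
      have h4 := Nat.mul_le_mul h2 h3
      have h5 : V * U = U * V := mul_comm _ _
      omega
    · simp [h3]
  · simp [h2]

theorem abs_lo_mul_lo_le2 (V U n : ℕ) :
    |(lo vonMangoldt V * lo mob U) n| ≤ Real.log n := by
  rw [ArithmeticFunction.mul_apply]
  calc |∑ x ∈ n.divisorsAntidiagonal, lo vonMangoldt V x.1 * lo mob U x.2|
      ≤ ∑ x ∈ n.divisorsAntidiagonal, |lo vonMangoldt V x.1 * lo mob U x.2| :=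
        Finset.abs_sum_le_sum_abs _ _
    _ ≤ ∑ x ∈ n.divisorsAntidiagonal, vonMangoldt x.1 := by
        refine Finset.sum_le_sum fun x _ => ?_
        rw [abs_mul]
        have h1 : |lo vonMangoldt V x.1| ≤ vonMangoldt x.1 := by
          rw [lo_apply]
          split_ifs
          · rw [abs_of_nonneg vonMangoldt_nonneg]
          · simp
        have h2 : |lo mob U x.2| ≤ 1 := by
          rw [lo_apply]
          split_ifs
          · exact abs_mob_le _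
          · simp
        calc |lo vonMangoldt V x.1| * |lo mob U x.2| ≤ vonMangoldt x.1 * 1 :=
              mul_le_mul h1 h2 (abs_nonneg _) vonMangoldt_nonneg
          _ = vonMangoldt x.1 := mul_one _
    _ = Real.log n := by
        rw [Nat.sum_divisorsAntidiagonal (fun i _ => vonMangoldt i), vonMangoldt_sum]

/-- the truncated exponential in a residue class -/
private noncomputable def G_X (y D l : ℕ) (t : ℝ) (n : ℕ) : ℂ :=
  if n ≤ y ∧ n ≡ l [MOD D] then ex (n * t) else 0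

private theorem G0_X (y D l : ℕ) (t : ℝ) (n : ℕ) (hn : y < n) : G_X y D l t n = 0 := by
  unfold G_X
  rw [if_neg (by omega)]

private theorem G1_X (y D l : ℕ) (t : ℝ) (n : ℕ) : ‖G_X y D l t n‖ ≤ 1 := by
  unfold G_X
  split_ifs
  · rw [norm_ex]
  · simp

/-- inner sum -/
private theorem restrict_X (y D l : ℕ) (t : ℝ) (f : ℕ → ℝ) (c : ℝ) (a : ℕ) (ha : 1 ≤ a) :
    ∑ b ∈ Ioc 0 y, ((c : ℝ) : ℂ) * ((f b : ℝ) : ℂ) * G_X y D l t (a * b) =
      ∑ b ∈ Ioc 0 (y / a),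
        if a * b ≡ l [MOD D] then ((c * f b : ℝ) : ℂ) * ex (a * b * t) else 0 := by
  have hs : (Ioc 0 y).filter (fun b => a * b ≤ y) = Ioc 0 (y / a) := by
    ext b
    simp only [mem_filter, mem_Ioc]
    constructor
    · rintro ⟨⟨h1, _⟩, h3⟩
      exact ⟨h1, (Nat.le_div_iff_mul_le ha).2 (by rwa [mul_comm])⟩
    · rintro ⟨h1, h2⟩
      have h3 := (Nat.le_div_iff_mul_le ha).1 h2
      exact ⟨⟨h1, h2.trans (Nat.div_le_self _ _)⟩, by rwa [mul_comm]⟩
  rw [← hs, sum_filter]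
  refine Finset.sum_congr rfl fun b _ => ?_
  unfold G_X
  by_cases h : a * b ≤ y
  · by_cases h2 : a * b ≡ l [MOD D]
    · rw [if_pos ⟨h, h2⟩, if_pos h, if_pos h2]
      push_cast
      ring
    · rw [if_neg (fun h3 => h2 h3.2), if_pos h, if_neg h2, mul_zero]
  · rw [if_neg (fun h3 => h h3.1), if_neg h, mul_zero]

/-- type one sums in the form of TU1 -/
private theorem typeI_X (y D l : ℕ) (t : ℝ) (c f : ℕ → ℝ) (J : ℕ)
    (hc : ∀ a, J < a → c a = 0) :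
    ∑ a ∈ Ioc 0 y, ∑ b ∈ Ioc 0 y, ((c a : ℝ) : ℂ) * ((f b : ℝ) : ℂ) * G_X y D l t (a * b) =
      ∑ k ∈ Ioc 0 J, ∑ m ∈ Ioc 0 (y / k),
        if k * m ≡ l [MOD D] then ((c k * f m : ℝ) : ℂ) * ex (k * m * t) else 0 := by
  set W : ℕ → ℂ := fun k => ∑ m ∈ Ioc 0 (y / k),
        if k * m ≡ l [MOD D] then ((c k * f m : ℝ) : ℂ) * ex (k * m * t) else 0 with hW
  have e1 : ∑ a ∈ Ioc 0 y, ∑ b ∈ Ioc 0 y,
      ((c a : ℝ) : ℂ) * ((f b : ℝ) : ℂ) * G_X y D l t (a * b) = ∑ a ∈ Ioc 0 y, W a := by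
    refine Finset.sum_congr rfl fun a ha => ?_
    exact restrict_X y D l t f (c a) a (mem_Ioc.1 ha).1
  rw [e1]
  have e2 : ∑ a ∈ Ioc 0 y, W a = ∑ a ∈ Ioc 0 (max y J), W a := by
    apply Finset.sum_subset (Finset.Ioc_subset_Ioc_right (le_max_left _ _))
    intro u hm hu
    have h1 : y < u := by
      by_contra hc
      exact hu (mem_Ioc.2 ⟨(mem_Ioc.1 hm).1, by omega⟩)
    simp only [hW]
    rw [Nat.div_eq_of_lt h1]
    simp
  have e3 : ∑ a ∈ Ioc 0 J, W a = ∑ a ∈ Ioc 0 (max y J), W a := by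
    apply Finset.sum_subset (Finset.Ioc_subset_Ioc_right (le_max_right _ _))
    intro u hm hu
    have h1 : J < u := by
      by_contra hc
      exact hu (mem_Ioc.2 ⟨(mem_Ioc.1 hm).1, by omega⟩)
    simp only [hW]
    refine Finset.sum_eq_zero fun m _ => ?_
    rw [hc u h1]
    simp
  rw [e2, ← e3]

private theorem sq4_X (a b c d : ℂ) :
    ‖a + b - c + d‖ ^ 2 ≤ 4 * (‖a‖ ^ 2 + ‖b‖ ^ 2 + ‖c‖ ^ 2 + ‖d‖ ^ 2) := by
  have h1 : ‖a + b - c + d‖ ≤ ‖a‖ + ‖b‖ + ‖c‖ + ‖d‖ := by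
    refine (norm_add_le _ _).trans ?_
    have := norm_sub_le (a + b) c
    have := norm_add_le a b
    linarith
  have h2 := pow_le_pow_left₀ (norm_nonneg _) h1 2
  nlinarith [sq_nonneg (‖a‖ - ‖b‖), sq_nonneg (‖a‖ - ‖c‖), sq_nonneg (‖a‖ - ‖d‖),
    sq_nonneg (‖b‖ - ‖c‖), sq_nonneg (‖b‖ - ‖d‖), sq_nonneg (‖c‖ - ‖d‖)]

private theorem sq3_X (a b c : ℝ) : (a + b + c) ^ 2 ≤ 3 * (a ^ 2 + b ^ 2 + c ^ 2) := by
  nlinarith [sq_nonneg (a - b), sq_nonneg (a - c), sq_nonneg (b - c)]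

/-- the first part -/
private theorem first_X (y D V : ℕ) (t B : ℝ) (hB : 0 ≤ B)
    (hb : ∀ n, 0 < n → n ≤ y → vonMangoldt n ≤ B) :
    ∑ l ∈ Un D, ‖∑ n ∈ Ioc 0 y, ((lo vonMangoldt V n : ℝ) : ℂ) * G_X y D l t n‖ ^ 2 ≤
      (V * B) ^ 2 := by
  set A1 : ℕ → ℂ := fun l => ∑ n ∈ Ioc 0 y, ((lo vonMangoldt V n : ℝ) : ℂ) * G_X y D l t n
    with hA1
  have c1 : ∀ l, ‖A1 l‖ ≤ ∑ n ∈ Ioc 0 V, if n ≡ l [MOD D] then B else 0 := by
    intro l
    simp only [hA1]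
    refine (norm_sum_le _ _).trans ?_
    have e1 : ∀ n ∈ Ioc 0 y, ‖((lo vonMangoldt V n : ℝ) : ℂ) * G_X y D l t n‖ ≤
        if n ≤ V ∧ n ≡ l [MOD D] then B else 0 := by
      intro n hn
      rw [norm_mul, Complex.norm_real, lo_apply]
      by_cases h4 : n ≤ V
      · by_cases h5 : n ≡ l [MOD D]
        · rw [if_pos h4, if_pos ⟨h4, h5⟩, Real.norm_of_nonneg vonMangoldt_nonneg]
          calc vonMangoldt n * ‖G_X y D l t n‖ ≤ B * 1 := by
                refine mul_le_mul ?_ (G1_X _ _ _ _ _) (norm_nonneg _) hB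
                exact hb n (mem_Ioc.1 hn).1 (mem_Ioc.1 hn).2
            _ = B := mul_one _
        · have h7 : ¬ (n ≤ V ∧ n ≡ l [MOD D]) := fun h6 => h5 h6.2
          have h8 : ¬ (n ≤ y ∧ n ≡ l [MOD D]) := fun h6 => h5 h6.2
          have h9 : G_X y D l t n = 0 := by
            unfold G_X
            rw [if_neg h8]
          rw [h9, if_neg h7]
          simp
      · have h7 : ¬ (n ≤ V ∧ n ≡ l [MOD D]) := fun h6 => h4 h6.1
        rw [if_neg h4, if_neg h7]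
        simp
    refine (Finset.sum_le_sum e1).trans ?_
    rw [← Finset.sum_filter, ← Finset.sum_filter]
    apply Finset.sum_le_sum_of_subset_of_nonneg
    · intro n hn
      rw [mem_filter, mem_Ioc] at hn
      exact mem_filter.2 ⟨mem_Ioc.2 ⟨hn.1.1, hn.2.1⟩, hn.2.2⟩
    · intro n _ _
      exact hB
  have c2 : ∑ l ∈ range D, ∑ n ∈ Ioc 0 V, (if n ≡ l [MOD D] then B else 0) ≤ V * B := by
    rw [Finset.sum_comm]
    calc ∑ n ∈ Ioc 0 V, ∑ l ∈ range D, (if n ≡ l [MOD D] then B else 0)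
        ≤ ∑ n ∈ Ioc 0 V, B := by
          refine Finset.sum_le_sum fun n _ => ?_
          rw [← Finset.sum_filter, Finset.sum_const, nsmul_eq_mul]
          have : #((range D).filter (fun l => n ≡ l [MOD D])) ≤ 1 := by
            rw [Finset.card_le_one]
            intro a ha b hb
            rw [mem_filter, mem_range] at ha hb
            have h6 : a ≡ b [MOD D] := ha.2.symm.trans hb.2
            exact Nat.ModEq.eq_of_lt_of_lt h6 ha.1 hb.1
          have h7 : ((#((range D).filter (fun l => n ≡ l [MOD D])) : ℕ) : ℝ) ≤ 1 := by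
            exact_mod_cast this
          exact mul_le_of_le_one_left hB h7
      _ = V * B := by
          rw [Finset.sum_const, nsmul_eq_mul, Nat.card_Ioc, Nat.sub_zero]
  have d0 : ∀ l, 0 ≤ ∑ n ∈ Ioc 0 V, (if n ≡ l [MOD D] then B else 0) := fun l =>
    (norm_nonneg _).trans (c1 l)
  calc ∑ l ∈ Un D, ‖A1 l‖ ^ 2
      ≤ ∑ l ∈ Un D, (∑ n ∈ Ioc 0 V, (if n ≡ l [MOD D] then B else 0)) ^ 2 :=
        Finset.sum_le_sum fun l _ => pow_le_pow_left₀ (norm_nonneg _) (c1 l) 2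
    _ ≤ ∑ l ∈ range D, (∑ n ∈ Ioc 0 V, (if n ≡ l [MOD D] then B else 0)) ^ 2 :=
        Finset.sum_le_sum_of_subset_of_nonneg (Finset.filter_subset _ _)
          fun _ _ _ => sq_nonneg _
    _ ≤ (∑ l ∈ range D, ∑ n ∈ Ioc 0 V, (if n ≡ l [MOD D] then B else 0)) ^ 2 :=
        Finset.sum_sq_le_sq_sum_of_nonneg (fun l _ => d0 l)
    _ ≤ (V * B) ^ 2 := by
        refine pow_le_pow_left₀ (Finset.sum_nonneg fun l _ => d0 l) c2 2

theorem hMILX (hTU1 : StTU1) (hMBL : StMBL) (hTS1 : StTS1) (hTCL : StTCL) : StMILX := by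
  obtain ⟨C1, hC1, hTI⟩ := hTU1
  obtain ⟨C3, hC3, hT3⟩ := hTS1
  obtain ⟨C4, hC4, hT4⟩ := hMBL
  refine ⟨36 + 108 * C1 ^ 2 + 128 * C3 + 62500 * C4, 11, by positivity, ?_⟩
  intro M D v U W R y h θ hM hD hDM hU hUM hW hWM hR hRv hvM hy hθ
  have hL := Pool.Agent.Helper48.BK.log3_Vau hM
  have hv1 : 1 ≤ v := hθ.1
  have hvr : (1 : ℝ) ≤ v := by exact_mod_cast hv1
  have hUr : (1 : ℝ) ≤ U := by exact_mod_cast hU
  have hWr : (1 : ℝ) ≤ W := by exact_mod_cast hW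
  have hRr : (1 : ℝ) ≤ R := by exact_mod_cast hR
  have hMr : (3 : ℝ) ≤ M := by exact_mod_cast hM
  have hDr : (1 : ℝ) ≤ D := by exact_mod_cast hD
  have hM0 : (0 : ℝ) < M := by linarith
  have hD0 : (0 : ℝ) < D := by linarith
  have hx : 3 ≤ D * M := hM.trans (Nat.le_mul_of_pos_left M hD)
  set L := Real.log M with hLdef
  have hlogD : Real.log D ≤ 2 * L := by
    have h1 : Real.log D ≤ Real.log ((M : ℝ) ^ 2) :=
      Real.log_le_log hD0 (by exact_mod_cast hDM)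
    rw [Real.log_pow] at h1
    push_cast at h1
    exact h1
  have hlogDM : Real.log ((D * M : ℕ) : ℝ) ≤ 3 * L := by
    push_cast
    rw [Real.log_mul (by positivity) (by positivity)]
    linarith
  set t : ℝ := θ / D with ht
  set V : ℕ := D * W with hV
  set E : ℝ := (U : ℝ) ^ 2 * (W : ℝ) ^ 2 * D / M ^ 2 with hE
  have hE0 : 0 ≤ E := by positivity
  set F : ℝ := 1 / v + 1 / U + 1 / W + 1 / R + v / M + (R : ℝ) * (v : ℝ) ^ 2 / M ^ 2 + E with hF
  have i1 : (0 : ℝ) ≤ 1 / v := by positivity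
  have i2 : (0 : ℝ) ≤ 1 / U := by positivity
  have i3 : (0 : ℝ) ≤ 1 / W := by positivity
  have i4 : (0 : ℝ) ≤ 1 / R := by positivity
  have i5 : (0 : ℝ) ≤ v / M := by positivity
  have i6 : (0 : ℝ) ≤ (R : ℝ) * (v : ℝ) ^ 2 / M ^ 2 := by positivity
  have hF0 : 0 ≤ F := by rw [hF]; positivity
  have hEF : E ≤ F := by rw [hF]; linarith
  set A1 : ℕ → ℂ := fun l => ∑ n ∈ Ioc 0 y, ((lo vonMangoldt V n : ℝ) : ℂ) * G_X y D l t n
    with hA1
  set A2 : ℕ → ℂ := fun l => ∑ a ∈ Ioc 0 y, ∑ b ∈ Ioc 0 y, ((lo mob U a : ℝ) : ℂ) *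
    ((log b : ℝ) : ℂ) * G_X y D l t (a * b) with hA2
  set A3 : ℕ → ℂ := fun l => ∑ a ∈ Ioc 0 y, ∑ b ∈ Ioc 0 y,
    (((lo vonMangoldt V * lo mob U) a : ℝ) : ℂ) * ((zet b : ℝ) : ℂ) * G_X y D l t (a * b)
    with hA3
  set A4 : ℕ → ℂ := fun l => ∑ a ∈ Ioc 0 y, ∑ b ∈ Ioc 0 y,
    (((hi mob U * zet) a : ℝ) : ℂ) * ((hi vonMangoldt V b : ℝ) : ℂ) * G_X y D l t (a * b)
    with hA4
  have hS : ∀ l, ∑ n ∈ (Ioc 0 y).filter (fun n => n ≡ l [MOD D]),
      ((Λ n : ℝ) : ℂ) * ex (n * (θ / D)) = A1 l + A2 l - A3 l + A4 l := by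
    intro l
    simp only [hA1, hA2, hA3, hA4]
    rw [← sum_conv _ _ y _ (G0_X y D l t), ← sum_conv _ _ y _ (G0_X y D l t),
      ← sum_conv _ _ y _ (G0_X y D l t)]
    rw [← Finset.sum_add_distrib, ← Finset.sum_sub_distrib, ← Finset.sum_add_distrib]
    rw [Finset.sum_filter]
    refine Finset.sum_congr rfl fun n hn => ?_
    have h := congrArg (fun f : ArithmeticFunction ℝ => f n) (vaughan2 V U)
    simp only [sub_eq_add_neg, ArithmeticFunction.add_apply, ArithmeticFunction.neg_apply] at h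
    have hn2 := (mem_Ioc.1 hn).2
    have h3 : (if n ≡ l [MOD D] then ((Λ n : ℝ) : ℂ) * ex (n * (θ / D)) else 0) =
        ((vonMangoldt n : ℝ) : ℂ) * G_X y D l t n := by
      unfold G_X
      by_cases h4 : n ≡ l [MOD D]
      · rw [if_pos h4, if_pos ⟨hn2, h4⟩]
      · rw [if_neg h4, if_neg (fun h5 => h4 h5.2), mul_zero]
    rw [h3, h]
    push_cast
    ring
  -- first part
  have b1 : D * ∑ l ∈ Un D, ‖A1 l‖ ^ 2 ≤ 9 * ((D : ℝ) * M) ^ 2 * L ^ 2 * F := by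
    have h1 := first_X y D V t (3 * L) (by linarith) (by
      intro n hn hny
      refine vonMangoldt_le_log.trans (le_trans ?_ hlogDM)
      refine Real.log_le_log (by exact_mod_cast hn) ?_
      exact_mod_cast hny.trans hy)
    have hVr : (V : ℝ) = D * W := by rw [hV]; push_cast; ring
    calc (D : ℝ) * ∑ l ∈ Un D, ‖A1 l‖ ^ 2 ≤ D * (V * (3 * L)) ^ 2 :=
          mul_le_mul_of_nonneg_left h1 hD0.le
      _ = 9 * ((D : ℝ) * M) ^ 2 * L ^ 2 * ((W : ℝ) ^ 2 * D / M ^ 2) := by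
          rw [hVr]
          field_simp
          ring
      _ ≤ 9 * ((D : ℝ) * M) ^ 2 * L ^ 2 * F := by
          have e1 : (W : ℝ) ^ 2 * D / M ^ 2 ≤ E := by
            rw [hE]
            apply div_le_div_of_nonneg_right _ (by positivity)
            have e2 : (1 : ℝ) ≤ (U : ℝ) ^ 2 := one_le_pow₀ hUr
            have e3 : 0 ≤ (W : ℝ) ^ 2 * D := by positivity
            rw [mul_assoc]
            exact le_mul_of_one_le_left e3 e2
          have e4 := e1.trans hEF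
          gcongr
  -- type one parts
  have b2 : D * ∑ l ∈ Un D, ‖A2 l‖ ^ 2 ≤ 27 * C1 ^ 2 * ((D : ℝ) * M) ^ 2 * L ^ 6 * F := by
    have e : ∀ l, A2 l = ∑ k ∈ Ioc 0 U, ∑ m ∈ Ioc 0 (y / k),
        if k * m ≡ l [MOD D] then ((lo mob U k * Real.log m : ℝ) : ℂ) * ex (k * m * (θ / D))
          else 0 := by
      intro l
      simp only [hA2]
      have := typeI_X y D l t (fun a => lo mob U a) (fun b => Real.log b) U (by
        intro a ha
        simp only [lo_apply]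
        rw [if_neg (by omega)])
      rw [← ht, ← this]
      rfl
    simp_rw [e]
    have h3 := hTI M D v U y h θ (fun a => lo mob U a) (fun b => Real.log b) 1 hM hD hU
      hUM hvM hy hθ zero_le_one (by
        intro k hk
        simp only [lo_apply]
        rw [if_pos hk]
        exact abs_mob_le k) (fun n => Real.log_natCast_nonneg n) (by
        intro m n hm hmn
        exact Real.log_le_log (by exact_mod_cast hm) (by exact_mod_cast hmn))
    refine h3.trans ?_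
    have h4 : (D * ((M : ℝ) / v + U + v)) ^ 2 ≤ 3 * ((D : ℝ) * M) ^ 2 * F := by
      have e1 : ((M : ℝ) / v + U + v) ^ 2 ≤ 3 * ((M : ℝ) ^ 2 / v + U ^ 2 + M * v) := by
        have f1 : ((M : ℝ) / v) ^ 2 ≤ (M : ℝ) ^ 2 / v := by
          rw [div_pow]
          apply div_le_div_of_nonneg_left (by positivity) (by linarith)
          exact le_self_pow₀ hvr two_ne_zero
        have f3 : (v : ℝ) ^ 2 ≤ M * v := by
          have : (v : ℝ) ≤ M := by exact_mod_cast hvM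
          rw [sq]
          exact mul_le_mul_of_nonneg_right this (by positivity)
        refine (sq3_X _ _ _).trans ?_
        linarith
      have e2 : ((M : ℝ) ^ 2 / v + U ^ 2 + M * v) = M ^ 2 * (1 / v + U ^ 2 / M ^ 2 + v / M) := by
        field_simp
      have e3 : (1 : ℝ) / v + U ^ 2 / M ^ 2 + v / M ≤ F := by
        have g3 : (U : ℝ) ^ 2 / M ^ 2 ≤ E := by
          rw [hE]
          apply div_le_div_of_nonneg_right _ (by positivity)
          have g4 : (1 : ℝ) ≤ (W : ℝ) ^ 2 * D :=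
            one_le_mul_of_one_le_of_one_le (one_le_pow₀ hWr) hDr
          rw [mul_assoc]
          exact le_mul_of_one_le_right (sq_nonneg _) g4
        rw [hF]
        linarith
      calc (D * ((M : ℝ) / v + U + v)) ^ 2 = (D : ℝ) ^ 2 * ((M : ℝ) / v + U + v) ^ 2 := by ring
        _ ≤ (D : ℝ) ^ 2 * (3 * (M ^ 2 * (1 / v + U ^ 2 / M ^ 2 + v / M))) := by
            rw [← e2]; gcongr
        _ ≤ (D : ℝ) ^ 2 * (3 * (M ^ 2 * F)) := by gcongr
        _ = 3 * ((D : ℝ) * M) ^ 2 * F := by ring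
    have h5 : 0 ≤ Real.log ((D * M : ℕ) : ℝ) := Real.log_natCast_nonneg _
    have h6 : Real.log ((D * M : ℕ) : ℝ) ^ 2 ≤ (3 * L) ^ 2 := pow_le_pow_left₀ h5 hlogDM 2
    calc (C1 * 1 * Real.log ((D * M : ℕ) : ℝ) * D * ((M : ℝ) / v + U + v) * L ^ 2) ^ 2
        = C1 ^ 2 * Real.log ((D * M : ℕ) : ℝ) ^ 2 * (D * ((M : ℝ) / v + U + v)) ^ 2 * L ^ 4 := by
          ring
      _ ≤ C1 ^ 2 * (3 * L) ^ 2 * (3 * ((D : ℝ) * M) ^ 2 * F) * L ^ 4 := by gcongr
      _ = 27 * C1 ^ 2 * ((D : ℝ) * M) ^ 2 * L ^ 6 * F := by ring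
  have b3 : D * ∑ l ∈ Un D, ‖A3 l‖ ^ 2 ≤ 32 * C3 * ((D : ℝ) * M) ^ 2 * L ^ 5 * F := by
    set J : ℕ := U * V with hJ
    have hJ1 : 1 ≤ J := Nat.mul_pos hU (Nat.mul_pos hD hW)
    have hJM : J ≤ M ^ 4 := by
      calc J = U * (D * W) := rfl
        _ ≤ M * (M ^ 2 * M) := by gcongr
        _ = M ^ 4 := by ring
    have hJr : (J : ℝ) = U * (D * W) := by rw [hJ, hV]; push_cast; ring
    have e : ∀ l, A3 l = ∑ k ∈ Ioc 0 J, ∑ m ∈ Ioc 0 (y / k),
        if k * m ≡ l [MOD D] then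
          (((lo vonMangoldt V * lo mob U) k * (1 : ℝ) : ℝ) : ℂ) * ex (k * m * (θ / D))
          else 0 := by
      intro l
      have h5 := typeI_X y D l t (fun a => (lo vonMangoldt V * lo mob U) a)
        (fun _ => (1 : ℝ)) J (by
        intro a ha
        exact lo_mul_lo_eq_zero2 _ _ V U a ha)
      rw [← ht, ← h5]
      simp only [hA3]
      refine Finset.sum_congr rfl fun a _ => Finset.sum_congr rfl fun b hb => ?_
      rw [zet_apply (mem_Ioc.1 hb).1]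
    simp_rw [e]
    have hck : ∀ k ≤ J, |(lo vonMangoldt V * lo mob U) k| ≤ 4 * L := by
      intro k hk
      rcases Nat.eq_zero_or_pos k with rfl | hk0
      · simp only [ArithmeticFunction.map_zero, abs_zero]
        linarith
      · refine (abs_lo_mul_lo_le2 V U k).trans ?_
        have h1 : Real.log k ≤ Real.log ((M : ℝ) ^ 4) :=
          Real.log_le_log (by exact_mod_cast hk0) (by exact_mod_cast hk.trans hJM)
        rw [Real.log_pow] at h1
        push_cast at h1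
        exact h1
    have h3 := hTCL M D J y θ (4 * L) (fun a => (lo vonMangoldt V * lo mob U) a) hD hy
      (by linarith) hck
    refine h3.trans ?_
    have h4 := hT3 M D v J R h θ hM hD hDM hJ1 hJM hR hRv hθ
    have h5 : (D : ℝ) ^ 2 * R * (v : ℝ) ^ 2 + ((D : ℝ) * M) ^ 2 / R +
      (D : ℝ) ^ 2 * J + D * (J : ℝ) ^ 2 ≤ 2 * ((D : ℝ) * M) ^ 2 * F := by
      have f1 : (D : ℝ) ^ 2 * R * (v : ℝ) ^ 2 =
          ((D : ℝ) * M) ^ 2 * ((R : ℝ) * (v : ℝ) ^ 2 / M ^ 2) := by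
        field_simp
      have f2 : ((D : ℝ) * M) ^ 2 / R = ((D : ℝ) * M) ^ 2 * (1 / R) := by
        ring
      have f3 : D * (J : ℝ) ^ 2 = ((D : ℝ) * M) ^ 2 * E := by
        rw [hJr, hE]
        field_simp
      have f4 : (D : ℝ) ^ 2 * J ≤ ((D : ℝ) * M) ^ 2 * E := by
        have g1 : ((D : ℝ) * M) ^ 2 * E = (D : ℝ) ^ 3 * ((U : ℝ) * W) ^ 2 := by
          rw [hE]
          field_simp
        have g2 : (D : ℝ) ^ 2 * J = (D : ℝ) ^ 3 * ((U : ℝ) * W) := by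
          rw [hJr]; ring
        rw [g1, g2]
        have g3 : (1 : ℝ) ≤ (U : ℝ) * W := one_le_mul_of_one_le_of_one_le hUr hWr
        have g4 : (U : ℝ) * W ≤ ((U : ℝ) * W) ^ 2 := le_self_pow₀ g3 two_ne_zero
        gcongr
      rw [f1, f2, f3]
      have f5 : 0 ≤ ((D : ℝ) * M) ^ 2 := by positivity
      have f6 : (R : ℝ) * (v : ℝ) ^ 2 / M ^ 2 + 1 / R + 2 * E ≤ 2 * F := by
        rw [hF]
        linarith
      have f7 := mul_le_mul_of_nonneg_left f6 f5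
      linarith
    have h6 : (0 : ℝ) ≤ (4 * L) ^ 2 := by positivity
    calc (4 * L) ^ 2 * ∑ j ∈ range D, (∑ k ∈ Icc 1 J, gs (((D * M : ℕ) : ℝ) / k)
            (k * ((θ + j) / D))) ^ 2
        ≤ (4 * L) ^ 2 * (C3 * L ^ 3 * ((D : ℝ) ^ 2 * R * (v : ℝ) ^ 2 + ((D : ℝ) * M) ^ 2 / R +
      (D : ℝ) ^ 2 * J + D * (J : ℝ) ^ 2)) := mul_le_mul_of_nonneg_left h4 h6
      _ ≤ (4 * L) ^ 2 * (C3 * L ^ 3 * (2 * ((D : ℝ) * M) ^ 2 * F)) := by gcongr
      _ = 32 * C3 * ((D : ℝ) * M) ^ 2 * L ^ 5 * F := by ring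
  -- bilinear part
  have b4 : D * ∑ l ∈ Un D, ‖A4 l‖ ^ 2 ≤ 15625 * C4 * ((D : ℝ) * M) ^ 2 * L ^ 11 * F := by
    have e : ∀ l, A4 l = ∑ k ∈ Ioc 0 y, ∑ m ∈ Ioc 0 (y / k),
        if k * m ≡ l [MOD D] then
          (((hi mob U * zet) k * hi vonMangoldt V m : ℝ) : ℂ) * ex (k * m * (θ / D))
          else 0 := by
      intro l
      simp only [hA4]
      refine Finset.sum_congr rfl fun a ha => ?_
      exact restrict_X y D l t (fun b => hi vonMangoldt V b) ((hi mob U * zet) a) a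
        (mem_Ioc.1 ha).1
    simp_rw [e]
    have hlog2 : Real.log ((2 * (D * M) : ℕ) : ℝ) ≤ 4 * L := by
      have e1 : ((2 * (D * M) : ℕ) : ℝ) = 2 * ((D * M : ℕ) : ℝ) := by push_cast; ring
      have e2 : ((D * M : ℕ) : ℝ) ≠ 0 := by
        have : (3 : ℝ) ≤ ((D * M : ℕ) : ℝ) := by exact_mod_cast hx
        linarith
      rw [e1, Real.log_mul (by norm_num) e2]
      have := Real.log_two_lt_d9
      linarith
    have hlog20 : 0 ≤ Real.log ((2 * (D * M) : ℕ) : ℝ) := Real.log_natCast_nonneg _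
    have hgb : ∀ n ≤ 2 * (D * M), ∑ m ∈ Ioc 0 n, hi vonMangoldt V m ^ 2 ≤
        (125 * L ^ 3) * n := by
      intro n hn
      have h4 := hi_vonMangoldt_sq_le V n (2 * (D * M)) hn
      simp only [Complex.norm_real, Real.norm_eq_abs, sq_abs] at h4
      refine h4.trans ?_
      refine mul_le_mul_of_nonneg_right ?_ (Nat.cast_nonneg n)
      calc Real.log ((2 * (D * M) : ℕ) : ℝ) ^ 2 ≤ (4 * L) ^ 2 :=
            pow_le_pow_left₀ hlog20 hlog2 2
        _ = 16 * L ^ 2 := by ring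
        _ ≤ 125 * L ^ 3 := by
            have r1 : L ^ 2 ≤ L ^ 3 := pow_le_pow_right₀ hL (by norm_num)
            have r2 : 0 ≤ L ^ 3 := pow_nonneg (by linarith) 3
            linarith
    have hfb : ∀ n ≤ 2 * (D * M), ∑ m ∈ Ioc 0 n, (hi mob U * zet) m ^ 2 ≤
        (125 * L ^ 3) * n := by
      intro n hn
      have h4 := hi_mob_zet_sq_le U n (2 * (D * M)) hn
      simp only [Complex.norm_real, Real.norm_eq_abs, sq_abs] at h4
      refine h4.trans ?_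
      refine mul_le_mul_of_nonneg_right ?_ (Nat.cast_nonneg n)
      calc (1 + Real.log ((2 * (D * M) : ℕ) : ℝ)) ^ 3 ≤ (5 * L) ^ 3 :=
            pow_le_pow_left₀ (by linarith) (by linarith) 3
        _ = 125 * L ^ 3 := by ring
    have h3 := hT4 M D v U W y h θ (fun a => (hi mob U * zet) a) (fun b => hi vonMangoldt V b)
      (125 * L ^ 3) hM hD hDM hU hW hvM hy hθ (by positivity)
      (fun n hn => hi_mob_zet_eq_zero U n hn)
      (fun n hn => by simp only [hi_apply]; rw [if_pos hn]) hfb hgb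
    refine h3.trans ?_
    have h4 : (1 : ℝ) / v + 1 / U + 1 / W + v / M ≤ F := by
      rw [hF]
      linarith
    calc C4 * (125 * L ^ 3) ^ 2 * ((D : ℝ) * M) ^ 2 * L ^ 5 * (1 / v + 1 / U + 1 / W + v / M)
        ≤ C4 * (125 * L ^ 3) ^ 2 * ((D : ℝ) * M) ^ 2 * L ^ 5 * F := by gcongr
      _ = 15625 * C4 * ((D : ℝ) * M) ^ 2 * L ^ 11 * F := by ring
  -- assembly
  have hsum : D * ∑ l ∈ Un D, ‖∑ n ∈ (Ioc 0 y).filter (fun n => n ≡ l [MOD D]),
      ((Λ n : ℝ) : ℂ) * ex (n * (θ / D))‖ ^ 2 ≤ 4 * (D * ∑ l ∈ Un D, ‖A1 l‖ ^ 2 +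
        D * ∑ l ∈ Un D, ‖A2 l‖ ^ 2 + D * ∑ l ∈ Un D, ‖A3 l‖ ^ 2 + D * ∑ l ∈ Un D, ‖A4 l‖ ^ 2) := by
    simp_rw [hS]
    calc (D : ℝ) * ∑ l ∈ Un D, ‖A1 l + A2 l - A3 l + A4 l‖ ^ 2
        ≤ D * ∑ l ∈ Un D, 4 * (‖A1 l‖ ^ 2 + ‖A2 l‖ ^ 2 + ‖A3 l‖ ^ 2 + ‖A4 l‖ ^ 2) := by
          refine mul_le_mul_of_nonneg_left ?_ hD0.le
          exact Finset.sum_le_sum fun l _ => sq4_X _ _ _ _
      _ = _ := by
          rw [← Finset.mul_sum, Finset.sum_add_distrib, Finset.sum_add_distrib,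
            Finset.sum_add_distrib]
          ring
  refine hsum.trans ?_
  set X := ((D : ℝ) * M) ^ 2 with hX
  have hX0 : 0 ≤ X := by positivity
  have hL0 : (0 : ℝ) ≤ L := by linarith
  have p2 : L ^ 2 ≤ L ^ 11 := pow_le_pow_right₀ hL (by norm_num)
  have p5 : L ^ 5 ≤ L ^ 11 := pow_le_pow_right₀ hL (by norm_num)
  have p6 : L ^ 6 ≤ L ^ 11 := pow_le_pow_right₀ hL (by norm_num)
  have q1 : 9 * X * L ^ 2 * F ≤ 9 * X * L ^ 11 * F := by gcongr
  have q2 : 27 * C1 ^ 2 * X * L ^ 6 * F ≤ 27 * C1 ^ 2 * X * L ^ 11 * F := by gcongr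
  have q3 : 32 * C3 * X * L ^ 5 * F ≤ 32 * C3 * X * L ^ 11 * F := by gcongr
  calc 4 * (D * ∑ l ∈ Un D, ‖A1 l‖ ^ 2 +
        D * ∑ l ∈ Un D, ‖A2 l‖ ^ 2 + D * ∑ l ∈ Un D, ‖A3 l‖ ^ 2 + D * ∑ l ∈ Un D, ‖A4 l‖ ^ 2)
      ≤ 4 * (9 * X * L ^ 11 * F + 27 * C1 ^ 2 * X * L ^ 11 * F +
        32 * C3 * X * L ^ 11 * F + 15625 * C4 * X * L ^ 11 * F) := by
        linarith
    _ = (36 + 108 * C1 ^ 2 + 128 * C3 + 62500 * C4) * X * L ^ 11 * F := by ring

end Pool.Agent.Helper47.E3
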